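import Mathlib
import Pool.Agent.N178.MU.Indep

/-!
# Chow–Künneth decompositions of the direct summands of the motive of an abelian variety
-/

set_option autoImplicit false

namespace Pool.Agent.V7H36.MK

open Module Pool.Agent.Y90 Pool.Agent.R915 Pool.Agent.N178.BL Pool.Agent.N178.MU

noncomputable section

variable {C : ChowTheory} {K : Projectors C} {X O : AV} {p : C.Co X X}

/-- Homologically trivial idempotents are zero. -/
theorem idem_zero {e : C.Co X X} (he : C.IsMotive e) (h0 : ∀ ω, C.pb e ω = 0) : e = 0 := by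
  obtain ⟨N, hN⟩ := C.nilpotent e he.1 h0
  have h1 : ∀ k : ℕ, (fun g : C.Co X X => C.o e g)^[k + 1] (C.one X) = e := by
    intro k
    induction k with
    | zero => exact C.o_one e
    | succ k ih => rw [Function.iterate_succ_apply', ih, he.2]
  have h2 := h1 N
  rw [Function.iterate_succ_apply', hN, o_zero] at h2
  exact h2.symm

/-- The correspondences of degree zero. -/
def Zc (C : ChowTheory) (X : AV) : AddSubgroup (C.Co X X) where
  carrier := {f | C.IsDeg 0 f}
  zero_mem' := deg_zero (C.deg_one X)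
  add_mem' := fun ha hb => deg_add ha hb
  neg_mem' := fun ha => deg_neg' ha

theorem deg_mul {f g : C.Co X X} (hf : C.IsDeg 0 f) (hg : C.IsDeg 0 g) : C.IsDeg 0 (C.o f g) := by
  have h := C.deg_o g f hg hf
  rwa [add_zero] at h

instance ringZ : Ring (Zc C X) :=
  { (inferInstance : AddCommGroup (Zc C X)) with
    mul := fun f g => ⟨C.o f.1 g.1, deg_mul f.2 g.2⟩
    one := ⟨C.one X, C.deg_one X⟩
    mul_assoc := fun f g h => Subtype.ext (C.assoc h.1 g.1 f.1).symm
    one_mul := fun f => Subtype.ext (C.one_o f.1)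
    mul_one := fun f => Subtype.ext (C.o_one f.1)
    left_distrib := fun f g h => Subtype.ext (C.o_add f.1 g.1 h.1)
    right_distrib := fun f g h => Subtype.ext (C.add_o f.1 g.1 h.1)
    zero_mul := fun f => Subtype.ext (zero_o f.1)
    mul_zero := fun f => Subtype.ext (o_zero f.1) }

theorem coe_mul (f g : Zc C X) : ((f * g : Zc C X) : C.Co X X) = C.o f.1 g.1 := rfl

theorem coe_one : ((1 : Zc C X) : C.Co X X) = C.one X := rfl

/-- The action on the cohomology. -/
def act (C : ChowTheory) (X : AV) : Zc C X →+* (AddMonoid.End (HT X))ᵐᵒᵖ where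
  toFun f := MulOpposite.op ⟨⟨C.pb f.1, pb_zero f.1⟩, C.pb_add f.1⟩
  map_one' := by
    apply MulOpposite.unop_injective
    refine DFunLike.ext _ _ fun ω => ?_
    exact C.pb_one X ω
  map_mul' f g := by
    apply MulOpposite.unop_injective
    refine DFunLike.ext _ _ fun ω => ?_
    exact C.pb_o g.1 f.1 ω
  map_zero' := by
    apply MulOpposite.unop_injective
    refine DFunLike.ext _ _ fun ω => ?_
    exact zero_pb ω
  map_add' f g := by
    apply MulOpposite.unop_injective
    refine DFunLike.ext _ _ fun ω => ?_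
    exact C.add_pb f.1 g.1 ω

theorem act_eq {f g : Zc C X} : act C X f = act C X g ↔ ∀ ω, C.pb f.1 ω = C.pb g.1 ω := by
  constructor
  · intro h ω
    exact DFunLike.congr_fun (MulOpposite.op_injective h) ω
  · intro h
    apply MulOpposite.unop_injective
    exact DFunLike.ext _ _ fun ω => h ω

theorem nil_ker : ∀ x ∈ RingHom.ker (act C X), IsNilpotent x := by
  intro x hx
  have h1 : ∀ ω, C.pb x.1 ω = 0 := fun ω => by
    have h2 : act C X x = act C X 0 := by rw [RingHom.mem_ker.1 hx, map_zero]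
    rw [act_eq.1 h2 ω]
    exact zero_pb ω
  obtain ⟨N, hN⟩ := C.nilpotent x.1 x.2 h1
  have key : ∀ k : ℕ, ((x ^ k : Zc C X) : C.Co X X) =
      (fun g : C.Co X X => C.o x.1 g)^[k] (C.one X) := by
    intro k
    induction k with
    | zero => rw [pow_zero]; rfl
    | succ k ih => rw [pow_succ', coe_mul, ih, Function.iterate_succ_apply']
  exact ⟨N, Subtype.ext ((key N).trans hN)⟩

theorem pb_inc (K : Projectors C) {e : C.Co X X} (he : C.IsDeg 0 e) (m : ℕ) (ω : HT X) :
    C.pb e (inc X m (ω m)) = inc X m (C.pb e ω m) := by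
  refine eq_inc ?_ fun l hl => ?_
  · refine K.graded 0 e he _ _ _ fun a ha => ?_
    obtain rfl : a = m := by omega
    exact inc_same _ _
  · have h1 : C.pb e (inc X m (ω m)) l = C.pb e 0 l := by
      refine K.graded 0 e he _ _ _ fun a ha => ?_
      obtain rfl : a = l := by omega
      exact inc_ne hl _
    rw [h1, pb_zero]
    rfl

/-- Each idempotent splits off its part of weight `m`. -/
theorem split (K : Projectors C) {e : Zc C X} (he : IsIdempotentElem e) (m : ℕ) :
    ∃ a : Zc C X, IsIdempotentElem a ∧ e * a = a ∧ a * e = a ∧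
      ∀ ω, C.pb a.1 ω = inc X m (C.pb e.1 ω m) := by
  obtain ⟨π, hπ⟩ : ∃ π : Zc C X, π = ⟨K.pr X m, K.deg X m⟩ := ⟨_, rfl⟩
  obtain ⟨t, ht⟩ : ∃ t : Zc C X, t = e * π * e := ⟨_, rfl⟩
  have hee : ∀ ω, C.pb e.1 (C.pb e.1 ω) = C.pb e.1 ω := fun ω => by
    rw [← C.pb_o, ← coe_mul, he.eq]
  have hpi : ∀ ω, C.pb π.1 ω = inc X m (ω m) := fun ω => by
    rw [hπ]
    exact eq_inc (K.kunneth X m ω).1 (K.kunneth X m ω).2
  have htpb : ∀ ω, C.pb t.1 ω = inc X m (C.pb e.1 ω m) := fun ω => by
    rw [ht, coe_mul, C.pb_o, coe_mul, C.pb_o, hpi, pb_inc K e.2, hee]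
  have h1 : t * (1 - e) = 0 := by
    rw [ht, mul_sub, mul_one, mul_assoc (e * π) e e, he.eq, sub_self]
  have h2 : (1 - e) * t = 0 := by
    rw [ht, sub_mul, one_mul, ← mul_assoc, ← mul_assoc, he.eq, sub_self]
  obtain ⟨a, ha1, ha2, ha3, ha4⟩ := exists_isIdempotentElem_mul_eq_zero_of_ker_isNilpotent
    (act C X) nil_ker (act C X t) ⟨t, rfl⟩ (by
      change act C X t * act C X t = act C X t
      rw [← map_mul, act_eq]
      intro ω
      rw [coe_mul, C.pb_o, htpb, htpb]
      have h3 := pb_inc K e.2 m (C.pb e.1 ω)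
      rw [hee] at h3
      have h4 : C.pb e.1 (inc X m (C.pb e.1 ω m)) m = C.pb e.1 ω m := by
        rw [h3, inc_same]
      exact congrArg (inc X m) h4)
    (1 - e) he.one_sub (by rw [← map_mul, h1, map_zero]) (by rw [← map_mul, h2, map_zero])
  refine ⟨a, ha1, ?_, ?_, fun ω => ?_⟩
  · rw [sub_mul, one_mul, sub_eq_zero] at ha4
    exact ha4.symm
  · rw [mul_sub, mul_one, sub_eq_zero] at ha3
    exact ha3.symm
  · rw [act_eq.1 ha2 ω, htpb]

theorem coe_sum {ι : Type} (s : Finset ι) (f : ι → Zc C X) :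
    ((∑ i ∈ s, f i : Zc C X) : C.Co X X) = ∑ i ∈ s, (f i : C.Co X X) :=
  map_sum (Zc C X).subtype f s

/-- The first `n` parts of a Chow–Künneth decomposition. -/
theorem exists_parts (K : Projectors C) {q : Zc C X} (hq : IsIdempotentElem q) (n : ℕ) :
    ∃ P : ℕ → Zc C X, (∀ m, IsIdempotentElem (P m) ∧ q * P m = P m ∧ P m * q = P m) ∧
      (∀ m l, m ≠ l → P m * P l = 0) ∧
      (∀ m < n, ∀ ω, C.pb (P m).1 ω = inc X m (C.pb q.1 ω m)) ∧ ∀ m, n ≤ m → P m = 0 := by
  induction n with
  | zero =>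
    refine ⟨fun _ => 0, fun m => ⟨IsIdempotentElem.zero, mul_zero _, zero_mul _⟩,
      fun m l _ => mul_zero _, fun m hm => absurd hm (Nat.not_lt_zero m), fun m _ => rfl⟩
  | succ n ih =>
    obtain ⟨P, h1, h2, h3, h4⟩ := ih
    obtain ⟨s, hs⟩ : ∃ s : Zc C X, s = ∑ m ∈ Finset.range n, P m := ⟨_, rfl⟩
    have hPs : ∀ m, P m * s = P m := by
      intro m
      rw [hs, Finset.mul_sum]
      by_cases hm : m < n
      · rw [Finset.sum_eq_single m (fun l _ hl => h2 m l hl.symm)
          (fun h => absurd (Finset.mem_range.2 hm) h), (h1 m).1.eq]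
      · rw [h4 m (not_lt.1 hm)]
        exact Finset.sum_eq_zero fun l _ => zero_mul _
    have hsP : ∀ m, s * P m = P m := by
      intro m
      rw [hs, Finset.sum_mul]
      by_cases hm : m < n
      · rw [Finset.sum_eq_single m (fun l _ hl => h2 l m hl)
          (fun h => absurd (Finset.mem_range.2 hm) h), (h1 m).1.eq]
      · rw [h4 m (not_lt.1 hm)]
        exact Finset.sum_eq_zero fun l _ => mul_zero _
    have hss : s * s = s := by
      nth_rw 1 [hs]
      rw [Finset.sum_mul]
      simp only [hPs]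
      exact hs.symm
    have hqs : q * s = s := by
      rw [hs, Finset.mul_sum]
      exact Finset.sum_congr rfl fun m _ => (h1 m).2.1
    have hsq : s * q = s := by
      rw [hs, Finset.sum_mul]
      exact Finset.sum_congr rfl fun m _ => (h1 m).2.2
    have he : IsIdempotentElem (q - s) := by
      change (q - s) * (q - s) = q - s
      rw [sub_mul, mul_sub, mul_sub, hq.eq, hqs, hsq, hss, sub_self, sub_zero]
    obtain ⟨a, ha1, ha2, ha3, ha4⟩ := split K he n
    have hepb : ∀ ω, C.pb (q - s).1 ω n = C.pb q.1 ω n := by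
      intro ω
      have h5 : ((q - s : Zc C X) : C.Co X X) = q.1 - s.1 := rfl
      rw [h5, pb_sub]
      have h6 : C.pb s.1 ω n = 0 := by
        rw [hs, coe_sum, pb_sum]
        have h7 : (∑ m ∈ Finset.range n, C.pb (P m).1 ω) n =
            ∑ m ∈ Finset.range n, C.pb (P m).1 ω n := Finset.sum_apply n _ _
        rw [h7]
        refine Finset.sum_eq_zero fun m hm => ?_
        have hm := Finset.mem_range.1 hm
        rw [h3 m hm, inc_ne (by omega)]
      change C.pb q.1 ω n - C.pb s.1 ω n = _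
      rw [h6, sub_zero]
    have haP : ∀ m, a * P m = 0 := fun m => by
      rw [← ha3, mul_assoc, sub_mul, (h1 m).2.1, hsP, sub_self, mul_zero]
    have hPa : ∀ m, P m * a = 0 := fun m => by
      rw [← ha2, ← mul_assoc, mul_sub, (h1 m).2.2, hPs, sub_self, zero_mul]
    have hqa : q * a = a := by
      rw [← ha2, ← mul_assoc, mul_sub, hq.eq, hqs]
    have haq : a * q = a := by
      rw [← ha3, mul_assoc, sub_mul, hq.eq, hsq]
    refine ⟨fun m => if m = n then a else P m, fun m => ?_, fun m l hml => ?_, fun m hm ω => ?_,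
      fun m hm => ?_⟩
    · by_cases hm : m = n
      · simp only [hm, if_true]
        exact ⟨ha1, hqa, haq⟩
      · simp only [hm, if_false]
        exact h1 m
    · by_cases hm : m = n
      · have hl : l ≠ n := fun h => hml (hm.trans h.symm)
        simp only [hm, hl, if_true, if_false]
        exact haP l
      · by_cases hl : l = n
        · simp only [hm, hl, if_true, if_false]
          exact hPa m
        · simp only [hm, hl, if_false]
          exact h2 m l hml
    · by_cases hm' : m = n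
      · subst hm'
        simp only [if_true]
        rw [ha4, hepb]
      · simp only [hm', if_false]
        exact h3 m (by omega) ω
    · have hm' : m ≠ n := by omega
      simp only [hm', if_false]
      exact h4 m (by omega)

/-- **Murre's conjecture (A)** for the direct summands of the motives of abelian varieties. -/
theorem exists_ck (K : Projectors C) (hp : C.IsMotive p) : ∃ P, IsChowKunneth p P := by
  obtain ⟨P, h1, h2, h3, h4⟩ := exists_parts K (q := (⟨p, hp.1⟩ : Zc C X))
    (Subtype.ext hp.2) (finrank ℚ X.H + 1)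
  obtain ⟨s, hs⟩ : ∃ s : Zc C X, s = ∑ m ∈ Finset.range (finrank ℚ X.H + 1), P m := ⟨_, rfl⟩
  have hs' : s.1 = ∑ m ∈ Finset.range (finrank ℚ X.H + 1), (P m).1 := by
    rw [hs, coe_sum]
  have hPs : ∀ m, P m * s = P m := by
    intro m
    rw [hs, Finset.mul_sum]
    by_cases hm : m < finrank ℚ X.H + 1
    · rw [Finset.sum_eq_single m (fun l _ hl => h2 m l hl.symm)
        (fun h => absurd (Finset.mem_range.2 hm) h), (h1 m).1.eq]
    · rw [h4 m (not_lt.1 hm)]
      exact Finset.sum_eq_zero fun l _ => zero_mul _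
  have hss : s * s = s := by
    nth_rw 1 [hs]
    rw [Finset.sum_mul]
    simp only [hPs]
    exact hs.symm
  have hqs : (⟨p, hp.1⟩ : Zc C X) * s = s := by
    rw [hs, Finset.mul_sum]
    exact Finset.sum_congr rfl fun m _ => (h1 m).2.1
  have hsq : s * (⟨p, hp.1⟩ : Zc C X) = s := by
    rw [hs, Finset.sum_mul]
    exact Finset.sum_congr rfl fun m _ => (h1 m).2.2
  have hpp : (⟨p, hp.1⟩ : Zc C X) * ⟨p, hp.1⟩ = ⟨p, hp.1⟩ := Subtype.ext hp.2
  have he : ((⟨p, hp.1⟩ : Zc C X) - s) * (⟨p, hp.1⟩ - s) = ⟨p, hp.1⟩ - s := by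
    rw [sub_mul, mul_sub, mul_sub, hpp, hqs, hsq, hss, sub_self, sub_zero]
  have h5 : p - s.1 = 0 := by
    refine idem_zero (X := X) ⟨((⟨p, hp.1⟩ : Zc C X) - s).2, congrArg Subtype.val he⟩ fun ω => ?_
    rw [pb_sub, sub_eq_zero, hs', pb_sum]
    rw [Finset.sum_congr rfl fun m hm => h3 m (Finset.mem_range.1 hm) ω]
    exact sum_inc (C.pb p ω)
  refine ⟨fun m => (P m).1, fun m => ⟨(P m).2, congrArg Subtype.val (h1 m).1.eq⟩, fun m l hml => ?_,
    ⟨finrank ℚ X.H + 1, ?_, fun m hm => ?_⟩, fun m l hml ω => ?_⟩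
  · exact congrArg Subtype.val (h2 m l hml)
  · rw [← hs']
    exact sub_eq_zero.1 h5
  · change (P m).1 = 0
    rw [h4 m hm]
    rfl
  · change C.pb (P m).1 ω l = 0
    by_cases hm : m < finrank ℚ X.H + 1
    · rw [h3 m hm, inc_ne hml]
    · rw [h4 m (not_lt.1 hm)]
      exact congrFun (zero_pb ω) l

end

end Pool.Agent.V7H36.MK
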