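import Mathlib
import Pool.Agent.W495.FM.HomDefs

/-!
# Étale motivic cohomology of smooth projective varieties over finite fields: definitions
-/

set_option autoImplicit false

namespace Pool.Agent.V7H36.EM

open Pool.Agent.W495.FM

/-- Known properties of the étale motivic cohomology groups `H X n i = H^i(X_et, ℤ(n))` and of the
Weil-étale motivic cohomology groups `W X n i = H^i_W(X, ℤ(n))` of the smooth projective varieties `X`
of pure dimension `d` over a finite field (`S X d`). -/
structure IsEtale {Ω V : Type} [Field Ω] (T : Homology Ω V) (S : V → ℤ → Prop)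
    (W H : V → ℤ → ℤ → Type) [∀ X n i, AddCommGroup (W X n i)] [∀ X n i, AddCommGroup (H X n i)] :
    Prop where
  /-- Deligne: the group `H_i(X, ℚ_ℓ(j)) = H^(2 d - i)(X, ℚ_ℓ(d - j))` is pure of weight `2 j - i`, so
  one is not an eigenvalue of the Frobenius if `i ≠ 2 j` (two invariant elements are equal) -/
  pure : ∀ X d, S X d → ∀ i j : ℤ, i ≠ 2 * j → {e | T.frob X i j e = e}.Subsingleton
  /-- Geisser: there is an exact sequence
  `H^(i-2)(X, ℚ(n)) → H^i(X_et, ℤ(n)) → H^i_W(X, ℤ(n))`, where
  `H^k(X, ℚ(n)) = H_(2 d - k)^M(X, ℚ(d - n))` is the rational motivic cohomology; so the second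
  homomorphism is injective if the first group is zero -/
  exact : ∀ X d, S X d → ∀ n i : ℤ, Subsingleton (T.M X (2 * d - (i - 2)) (d - n)) →
    ∃ a : H X n i →+ W X n i, Function.Injective a
  /-- Geisser, Kahn: the groups `H^i_W(X, ℤ(n))` are finitely generated if the conjecture of Tate and
  Beilinson holds for `X` -/
  weil : ∀ X d, S X d → TB T X → ∀ n i, AddGroup.FG (W X n i)

end Pool.Agent.V7H36.EM
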