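import Mathlib
import Pool.Agent.V7H36.EtaleMotDefs
import Pool.Agent.W495.FM.Hom

/-!
# Étale motivic cohomology of smooth projective varieties over finite fields
-/

set_option autoImplicit false

namespace Pool.Agent.V7H36.EM

open Pool.Agent.W495.FM

variable {Ω V : Type} [Field Ω]

theorem motivic_zero {T : Homology Ω V} (hT : IsHomology T) {S : V → ℤ → Prop}
    {W H : V → ℤ → ℤ → Type} [∀ X n i, AddCommGroup (W X n i)] [∀ X n i, AddCommGroup (H X n i)]
    (h : IsEtale T S W H) {X : V} {d : ℤ} (hX : S X d) (hTB : TB T X) {i j : ℤ} (hij : i ≠ 2 * j)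
    (x : T.M X i j) : x = 0 := by
  by_contra hx
  have h1 : LinearIndependent ℚ fun _ : Fin 1 => x := by
    rw [linearIndependent_unique_iff]
    exact hx
  have h2 := (hTB i j).2.1 1 (fun _ => x) h1
  have h3 := h2.ne_zero 0
  refine h3 (h.pure X d hX i j hij ?_ ?_)
  · exact hT.frob_reg X i j x
  · obtain ⟨f, hf⟩ := hT.lin X i j
    change T.frob X i j 0 = 0
    rw [hf, map_zero]

theorem motivic_subsingleton {T : Homology Ω V} (hT : IsHomology T) {S : V → ℤ → Prop}
    {W H : V → ℤ → ℤ → Type} [∀ X n i, AddCommGroup (W X n i)] [∀ X n i, AddCommGroup (H X n i)]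
    (h : IsEtale T S W H) {X : V} {d : ℤ} (hX : S X d) (hTB : TB T X) {i j : ℤ} (hij : i ≠ 2 * j) :
    Subsingleton (T.M X i j) :=
  ⟨fun x y => (motivic_zero hT h hX hTB hij x).trans (motivic_zero hT h hX hTB hij y).symm⟩

/-- The étale motivic cohomology groups `H^i(X_et, ℤ(n))`, `i ≠ 2 n + 2`, are finitely generated if the
conjecture of Tate and Beilinson holds for `X`. -/
theorem fg_of_tb {T : Homology Ω V} (hT : IsHomology T) {S : V → ℤ → Prop}
    {W H : V → ℤ → ℤ → Type} [∀ X n i, AddCommGroup (W X n i)] [∀ X n i, AddCommGroup (H X n i)]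
    (h : IsEtale T S W H) {X : V} {d : ℤ} (hX : S X d) (hTB : TB T X) (n i : ℤ)
    (hi : i ≠ 2 * n + 2) : AddGroup.FG (H X n i) := by
  obtain ⟨a, hinj⟩ := h.exact X d hX n i (motivic_subsingleton hT h hX hTB (by omega))
  have h1 : AddGroup.FG (W X n i) := h.weil X d hX hTB n i
  have h2 : Module.Finite ℤ (W X n i) := Module.Finite.iff_addGroup_fg.2 h1
  have h3 : Module.Finite ℤ (H X n i) :=
    Module.Finite.of_injective a.toIntLinearMap hinj
  exact Module.Finite.iff_addGroup_fg.1 h3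

section

open Pool.Agent.W495.TA

variable [IsAlgClosed Ω] [CharZero Ω] {p : ℕ} [Fact p.Prime] {ν : PadicAlgCl p ≃+* ℂ}

theorem main_small {T : Homology Ω V} (hT : IsHomology T) {S : V → ℤ → Prop}
    {W H : V → ℤ → ℤ → Type} [∀ X n i, AddCommGroup (W X n i)] [∀ X n i, AddCommGroup (H X n i)]
    (h : IsEtale T S W H) {X : V} {d : ℤ} (hX : S X d)
    (hG : Generated T (IsSmallAbelian p ν T) X) :
    (∀ n i : ℤ, i ≠ 2 * n + 2 → AddGroup.FG (H X n i)) ∧
      ∀ i j : ℤ, i ≠ 2 * j → Subsingleton (T.M X i j) :=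
  ⟨fun n i hi => fg_of_tb hT h hX (tb_small hT hG) n i hi,
    fun _ _ hij => motivic_subsingleton hT h hX (tb_small hT hG) hij⟩

end

end Pool.Agent.V7H36.EM
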