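import Mathlib
import Pool.Agent.N178.MU.Murre

/-!
# The injectivity of the Abel–Jacobi map from vanishing of Hodge numbers
-/

set_option autoImplicit false
set_option linter.unusedSectionVars false

namespace Pool.Agent.V7H36.AJ2

open Module Pool.Agent.Y90 Pool.Agent.R915 Pool.Agent.N178.BL Pool.Agent.N178.GB
open Pool.Agent.N178.AJ Pool.Agent.N178.MU
open Pool.Agent.W546.GHC (IsHodgeSubstructure LevelLE complexify typeForms)
open Pool.Agent.N178.HX (Cor GHC)

noncomputable section

variable {C : ChowTheory} {K : Projectors C} {X O : AV} {A : AbelJacobi C O}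

/-- The action on the cohomology is the one of a correspondence which kills the cycles of dimension
`i` in the kernel of the Abel–Jacobi map. -/
def Kills (A : AbelJacobi C O) (i : ℤ) (q : C.Co X X) : Prop :=
  ∃ T : C.Co X X, C.IsDeg 0 T ∧ (∀ ω, C.pb T ω = C.pb q ω) ∧
    ∀ z : C.Co O X, A.Triv i z → C.o T z = 0

theorem Kills.zero {i : ℤ} : Kills A i (0 : C.Co X X) :=
  ⟨0, deg_zero (C.deg_one X), fun _ => rfl, fun _ _ => zero_o _⟩

theorem Kills.add {i : ℤ} {q q' : C.Co X X} (h : Kills A i q) (h' : Kills A i q') :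
    Kills A i (q + q') := by
  obtain ⟨T, h1, h2, h3⟩ := h
  obtain ⟨T', h1', h2', h3'⟩ := h'
  refine ⟨T + T', deg_add h1 h1', fun ω => ?_, fun z hz => ?_⟩
  · rw [C.add_pb, C.add_pb, h2, h2']
  · rw [C.add_o, h3 z hz, h3' z hz, add_zero]

theorem Kills.congr {i : ℤ} {q q' : C.Co X X} (h : Kills A i q) (h' : ∀ ω, C.pb q' ω = C.pb q ω) :
    Kills A i q' := by
  obtain ⟨T, h1, h2, h3⟩ := h
  exact ⟨T, h1, fun ω => by rw [h2, h'], h3⟩

theorem Kills.of_good {c : ℕ} {q : C.Co X X} (h : Good A c q) {i : ℤ} (hi : i ≤ c) :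
    Kills A i q := by
  obtain ⟨T, h1, h2, h3⟩ := h
  exact ⟨T, h1, h2, fun z hz => h3 i z hi hz⟩

/-- **The injectivity of the Abel–Jacobi map on the cycles of dimension `i`** if the Hodge numbers
`h^(s, t)` with `min (s, t) ≤ i` and `max (s, t) ≥ i + 2` are zero. -/
theorem inj (K : Projectors C) (hG : GHC C.alg X) (hX : A.Def X) {p : C.Co X X}
    (hp : C.IsMotive p) {i : ℕ}
    (hH : ∀ s t : ℕ, min s t ≤ i → i + 2 ≤ max s t → HodgeZero p s t)
    {z : C.Co O X} (hz : A.Triv i z) (hpz : C.o p z = z) : z = 0 := by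
  classical
  have hO := A.point
  have hpd := hp.1
  -- the parts
  have hed : ∀ m, C.IsDeg 0 (C.o p (K.pr X m)) := fun m => by
    have h1 := C.deg_o _ _ (K.deg X m) hpd
    rwa [zero_add] at h1
  have hepb : ∀ m ω, C.pb (C.o p (K.pr X m)) ω = inc X m (C.pb p ω m) := fun m ω => by
    rw [C.pb_o]
    exact eq_inc (K.kunneth X m _).1 (K.kunneth X m _).2
  have himg : ∀ m, C.img (C.o p (K.pr X m)) m ≤ C.img p m := by
    intro m
    refine Submodule.span_le.2 ?_
    rintro _ ⟨ω, rfl⟩
    rw [hepb, inc_same]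
    exact Submodule.subset_span ⟨ω, rfl⟩
  have himg0 : ∀ m l, l ≠ m → C.img (C.o p (K.pr X m)) l = ⊥ := by
    intro m l hl
    rw [eq_bot_iff]
    refine Submodule.span_le.2 ?_
    rintro _ ⟨ω, rfl⟩
    rw [hepb, inc_ne hl]
    exact Submodule.zero_mem _
  have hmono : ∀ (m : ℕ) (V W : Submodule ℚ (X.H [⋀^Fin m]→ₗ[ℚ] ℚ)), V ≤ W →
      complexify X.per V ≤ complexify X.per W := by
    intro m V W h
    refine Submodule.span_mono ?_
    rintro ψ ⟨f, hf, hψ⟩
    exact ⟨f, h hf, hψ⟩
  have hzero : ∀ m s t : ℕ, s + t = m → HodgeZero p s t →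
      complexify X.per (C.img (C.o p (K.pr X m)) m) ⊓ typeForms X.T m s t = ⊥ := by
    intro m s t hst h
    subst hst
    rw [eq_bot_iff]
    refine le_trans (inf_le_inf_right _ (hmono _ _ _ (himg _))) ?_
    have h1 : complexify X.per (C.img p (s + t)) ⊓ typeForms X.T (s + t) s t = ⊥ := h
    rw [h1]
  have hpart : ∀ m, Kills A i (C.o p (K.pr X m)) := by
    intro m
    rcases lt_trichotomy m (2 * i + 1) with hm | hm | hm
    · -- small weights
      obtain ⟨n, k, hnk, h1, hL⟩ : ∃ n k : ℕ, m = n + 2 * k ∧ n + k ≤ i + 1 ∧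
          ∀ s t : ℕ, s + t = m → (n : ℤ) < |(s : ℤ) - t| → min s t ≤ i ∧ i + 2 ≤ max s t := by
        by_cases h2 : m ≤ i + 1
        · refine ⟨m, 0, by omega, by omega, fun s t hst h3 => ?_⟩
          exfalso
          rw [lt_abs] at h3
          omega
        · obtain ⟨k, hk⟩ : ∃ k : ℕ, k + i + 1 = m := ⟨m - i - 1, by omega⟩
          obtain ⟨n, hn⟩ : ∃ n : ℕ, n + m = 2 * i + 2 := ⟨2 * i + 2 - m, by omega⟩
          refine ⟨n, k, by omega, by omega, fun s t hst h3 => ?_⟩
          rw [lt_abs] at h3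
          omega
      obtain ⟨T, hT, hT'⟩ := exists_Wt K hG (hed m) hnk
        (fun l hl ω => by rw [hepb, inc_ne hl])
        (fun s t hst hlt => hzero m s t hst (hH s t (hL s t hst hlt).1 (hL s t hst hlt).2))
      exact ⟨T, Wt_deg K hT, hT', fun z hz => Wt_zero K hO hT (A.deg i z hz)
        (by omega) (by omega) (fun _ => A.hom i z hz)⟩
    · -- the middle weight
      obtain rfl : m = 1 + 2 * i := by omega
      obtain ⟨q, hq, h1⟩ := one_part A hG (hed (1 + 2 * i)) (fun s t hst h2 => by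
        refine hzero _ s t hst (hH s t ?_ ?_) <;> (rw [le_abs] at h2; omega))
      refine Kills.of_good (c := i) (((good_one hX hq).left (hed (1 + 2 * i))).congr fun ω => ?_)
        le_rfl
      rw [C.pb_o q, hepb]
      have h2 := h1 (C.pb p ω (1 + 2 * i)) (by
        have h3 : C.pb p ω (1 + 2 * i) = C.pb (C.o p (K.pr X (1 + 2 * i))) ω (1 + 2 * i) := by
          rw [hepb, inc_same]
        rw [h3]
        exact Submodule.subset_span ⟨ω, rfl⟩)
      exact h2.symm
    · -- large weights
      obtain ⟨q, hq, h1⟩ := exists_q hG (hed m) (c := i + 1) (fun l s t hst hne h2 => by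
        by_cases hl : l = m
        · subst hl
          exact hzero _ s t hst (hH s t (by omega) (by omega))
        · rw [himg0 m l hl, complexify_bot, bot_inf_eq])
      refine Kills.of_good (c := i) (((good_fac hX hq).left (hed m)).congr fun ω => ?_) le_rfl
      rw [C.pb_o q, h1]
  -- the sum
  have hsum : ∀ s : Finset ℕ, Kills A i (∑ m ∈ s, C.o p (K.pr X m)) := by
    intro s
    induction s using Finset.induction_on with
    | empty => rw [Finset.sum_empty]; exact Kills.zero
    | insert m s hm ih => rw [Finset.sum_insert hm]; exact (hpart m).add ih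
  have hspb : ∀ (s : Finset ℕ) (ω : HT X), C.pb (∑ m ∈ s, C.o p (K.pr X m)) ω =
      ∑ m ∈ s, inc X m (C.pb p ω m) := by
    intro s ω
    induction s using Finset.induction_on with
    | empty => rw [Finset.sum_empty, Finset.sum_empty, zero_pb]
    | insert m s hm ih => rw [Finset.sum_insert hm, Finset.sum_insert hm, C.add_pb, ih, hepb]
  obtain ⟨T, hT, hT', hT0⟩ := (hsum (Finset.range (finrank ℚ X.H + 1))).congr (q' := p) fun ω => by
    rw [hspb, ← sum_inc]
  -- nilpotence
  obtain ⟨ν, hν⟩ : ∃ ν, ν = p - T := ⟨_, rfl⟩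
  have hνd : C.IsDeg 0 ν := by
    rw [hν]
    exact C.deg_sub _ _ hpd hT
  obtain ⟨N, hN⟩ := C.nilpotent ν hνd fun ω => by rw [hν, pb_sub, hT', sub_self]
  have h1 : C.o ν z = z := by
    have h2 := C.add_o (p - T) T z
    rw [sub_add_cancel, hT0 z hz, add_zero, hpz] at h2
    rw [hν, ← h2]
  have key : ∀ k : ℕ, C.o ((fun g : C.Co X X => C.o ν g)^[k] (C.one X)) z = z := by
    intro k
    induction k with
    | zero => rw [Function.iterate_zero, id_eq, C.one_o]
    | succ k ih => rw [Function.iterate_succ_apply', ← C.assoc, ih, h1]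
  rw [← key N, hN, zero_o]

end

end Pool.Agent.V7H36.AJ2
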